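import Mathlib

set_option autoImplicit false

namespace Pool.Agent.Results.MP_b9f640_co.HeFive

open SimpleGraph

/-- The permutation `σ` runs once round a Hamilton cycle of `G`. -/
def IsHam {V : Type} (G : SimpleGraph V) (σ : Equiv.Perm V) : Prop :=
  (∀ v, G.Adj v (σ v)) ∧
    ∀ X : Set V, X.Nonempty → (∀ v ∈ X, σ v ∈ X) → X = Set.univ

lemma IsHam.inv {V : Type} {G : SimpleGraph V} {σ : Equiv.Perm V} (h : IsHam G σ) :
    IsHam G σ.symm := by
  refine ⟨fun v => ?_, fun X hX hcl => ?_⟩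
  · have := h.1 (σ.symm v)
    rw [Equiv.apply_symm_apply] at this
    exact this.symm
  · by_contra hne
    have h1 := h.2 Xᶜ (by rwa [Set.nonempty_compl]) (by
      intro v hv hv'
      apply hv
      have := hcl _ hv'
      rwa [Equiv.symm_apply_apply] at this)
    rw [Set.compl_univ_iff] at h1
    exact hX.ne_empty h1

lemma IsHam.apply_ne {V : Type} {G : SimpleGraph V} {σ : Equiv.Perm V} (h : IsHam G σ) (v : V) :
    σ v ≠ v := (h.1 v).ne'

lemma IsHam.apply_apply_ne {V : Type} {G : SimpleGraph V} {σ : Equiv.Perm V} (h : IsHam G σ)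
    (h3 : ∀ a b : V, ∃ c, c ≠ a ∧ c ≠ b) (v : V) : σ (σ v) ≠ v := by
  intro hv
  have h1 := h.2 {v, σ v} ⟨v, by simp⟩ (by
    intro w hw
    rcases hw with rfl | hw
    · simp
    · rw [Set.mem_singleton_iff] at hw
      rw [hw, hv]
      simp)
  obtain ⟨c, hc1, hc2⟩ := h3 v (σ v)
  have : c ∈ ({v, σ v} : Set V) := by rw [h1]; trivial
  rcases this with h | h
  · exact hc1 h
  · exact hc2 h

/-- The class of graphs used in the induction. -/
structure Good {V : Type} (G : SimpleGraph V) : Prop where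
  reg : ∀ v, {w | G.Adj v w}.ncard = 3
  tri : ∀ a b c, G.Adj a b → G.Adj b c → G.Adj c a → False
  quad : ∀ a b c d, G.Adj a b → G.Adj b c → G.Adj c d → G.Adj d a → a ≠ c → b ≠ d → False
  e5 : ∀ a b c d e, G.Adj a b → G.Adj b c → G.Adj c d → G.Adj d e → a ≠ c → b ≠ d → c ≠ e →
    ∃ σ, IsHam G σ ∧ σ a = b ∧ σ b = c ∧ σ c = d ∧ σ d = e

lemma Good.other {V : Type} {G : SimpleGraph V} (h : Good G) (v u : V) :
    ∃ w, G.Adj v w ∧ w ≠ u := by
  have h1 := h.reg v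
  obtain ⟨x, y, z, hxy, hxz, hyz, hs⟩ := Set.ncard_eq_three.1 h1
  by_cases hx : x = u
  · refine ⟨y, ?_, ?_⟩
    · have : y ∈ {w | G.Adj v w} := by rw [hs]; simp
      exact this
    · rw [← hx]; exact hxy.symm
  · refine ⟨x, ?_, hx⟩
    have : x ∈ {w | G.Adj v w} := by rw [hs]; simp
    exact this

lemma Good.e4 {V : Type} {G : SimpleGraph V} (h : Good G) (a b c d : V) (h1 : G.Adj a b)
    (h2 : G.Adj b c) (h3 : G.Adj c d) (h4 : a ≠ c) (h5 : b ≠ d) :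
    ∃ σ, IsHam G σ ∧ σ a = b ∧ σ b = c ∧ σ c = d := by
  obtain ⟨e, he, he'⟩ := h.other d c
  obtain ⟨σ, hσ, g1, g2, g3, -⟩ := h.e5 a b c d e h1 h2 h3 he h4 h5 he'.symm
  exact ⟨σ, hσ, g1, g2, g3⟩

lemma Good.e3 {V : Type} {G : SimpleGraph V} (h : Good G) (a b c : V) (h1 : G.Adj a b)
    (h2 : G.Adj b c) (h4 : a ≠ c) : ∃ σ, IsHam G σ ∧ σ a = b ∧ σ b = c := by
  obtain ⟨e, he, he'⟩ := h.other c b
  obtain ⟨σ, hσ, g1, g2, -⟩ := h.e4 a b c e h1 h2 he h4 he'.symm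
  exact ⟨σ, hσ, g1, g2⟩

/-- A perfect matching between the neighbours of `v₁` and those of `v₂`. -/
structure NbMatch {V₁ V₂ : Type} (G₁ : SimpleGraph V₁) (v₁ : V₁) (G₂ : SimpleGraph V₂) (v₂ : V₂)
    (M : V₁ → V₂ → Prop) : Prop where
  left : ∀ u w, M u w → G₁.Adj v₁ u
  right : ∀ u w, M u w → G₂.Adj v₂ w
  func : ∀ u w w', M u w → M u w' → w = w'
  inj : ∀ u u' w, M u w → M u' w → u = u'
  tot : ∀ u, G₁.Adj v₁ u → ∃ w, M u w
  surj : ∀ w, G₂.Adj v₂ w → ∃ u, M u w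

lemma exists_nbMatch {V₁ V₂ : Type} {G₁ : SimpleGraph V₁} {G₂ : SimpleGraph V₂} (h₁ : Good G₁)
    (h₂ : Good G₂) (v₁ : V₁) (v₂ : V₂) : ∃ M, NbMatch G₁ v₁ G₂ v₂ M := by
  obtain ⟨x, y, z, hxy, hxz, hyz, hs⟩ := Set.ncard_eq_three.1 (h₁.reg v₁)
  obtain ⟨x', y', z', hxy', hxz', hyz', hs'⟩ := Set.ncard_eq_three.1 (h₂.reg v₂)
  have e1 : ∀ u, G₁.Adj v₁ u ↔ u = x ∨ u = y ∨ u = z := by
    intro u
    have : u ∈ {w | G₁.Adj v₁ w} ↔ u ∈ ({x, y, z} : Set V₁) := by rw [hs]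
    simpa using this
  have e2 : ∀ u, G₂.Adj v₂ u ↔ u = x' ∨ u = y' ∨ u = z' := by
    intro u
    have : u ∈ {w | G₂.Adj v₂ w} ↔ u ∈ ({x', y', z'} : Set V₂) := by rw [hs']
    simpa using this
  refine ⟨fun u w => (u = x ∧ w = x') ∨ (u = y ∧ w = y') ∨ (u = z ∧ w = z'), ?_, ?_, ?_, ?_, ?_, ?_⟩
  · intro u w h
    rw [e1]
    tauto
  · intro u w h
    rw [e2]
    tauto
  · rintro u w w' (⟨rfl, rfl⟩ | ⟨rfl, rfl⟩ | ⟨rfl, rfl⟩) (⟨h1, h2⟩ | ⟨h1, h2⟩ | ⟨h1, h2⟩) <;>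
      first
      | exact h2.symm
      | exact absurd h1 (by assumption)
      | exact absurd h1.symm (by assumption)
  · rintro u u' w (⟨rfl, rfl⟩ | ⟨rfl, rfl⟩ | ⟨rfl, rfl⟩) (⟨h1, h2⟩ | ⟨h1, h2⟩ | ⟨h1, h2⟩) <;>
      first
      | exact h1.symm
      | exact absurd h2 (by assumption)
      | exact absurd h2.symm (by assumption)
  · intro u hu
    rw [e1] at hu
    rcases hu with rfl | rfl | rfl
    · exact ⟨x', Or.inl ⟨rfl, rfl⟩⟩
    · exact ⟨y', Or.inr (Or.inl ⟨rfl, rfl⟩)⟩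
    · exact ⟨z', Or.inr (Or.inr ⟨rfl, rfl⟩)⟩
  · intro u hu
    rw [e2] at hu
    rcases hu with rfl | rfl | rfl
    · exact ⟨x, Or.inl ⟨rfl, rfl⟩⟩
    · exact ⟨y, Or.inr (Or.inl ⟨rfl, rfl⟩)⟩
    · exact ⟨z, Or.inr (Or.inr ⟨rfl, rfl⟩)⟩

section Glue

variable {V₁ V₂ : Type} (G₁ : SimpleGraph V₁) (v₁ : V₁) (G₂ : SimpleGraph V₂) (v₂ : V₂)
  (M : V₁ → V₂ → Prop)

/-- Delete `v₁` from `G₁` and `v₂` from `G₂` and join their neighbours by the matching `M`. -/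
def glue : SimpleGraph ({u : V₁ // u ≠ v₁} ⊕ {w : V₂ // w ≠ v₂}) where
  Adj
    | Sum.inl u, Sum.inl u' => G₁.Adj u u'
    | Sum.inr w, Sum.inr w' => G₂.Adj w w'
    | Sum.inl u, Sum.inr w => M u w
    | Sum.inr w, Sum.inl u => M u w
  symm := ⟨by
    rintro (u | w) (u' | w') h
    · exact (show G₁.Adj _ _ from h).symm
    · exact h
    · exact h
    · exact (show G₂.Adj _ _ from h).symm⟩
  loopless := ⟨by
    rintro (u | w) h
    · exact (show G₁.Adj _ _ from h).ne rfl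
    · exact (show G₂.Adj _ _ from h).ne rfl⟩

variable {G₁ v₁ G₂ v₂ M}

@[simp] lemma glue_ll (u u') : (glue G₁ v₁ G₂ v₂ M).Adj (Sum.inl u) (Sum.inl u') ↔
    G₁.Adj u u' := Iff.rfl
@[simp] lemma glue_rr (w w') : (glue G₁ v₁ G₂ v₂ M).Adj (Sum.inr w) (Sum.inr w') ↔
    G₂.Adj w w' := Iff.rfl
@[simp] lemma glue_lr (u w) : (glue G₁ v₁ G₂ v₂ M).Adj (Sum.inl u) (Sum.inr w) ↔
    M u w := Iff.rfl
@[simp] lemma glue_rl (u w) : (glue G₁ v₁ G₂ v₂ M).Adj (Sum.inr w) (Sum.inl u) ↔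
    M u w := Iff.rfl


section Comb

variable [DecidableEq V₁] [DecidableEq V₂]

/-- Splice two Hamilton cycles. -/
def combFun (σ₁ : Equiv.Perm V₁) (σ₂ : Equiv.Perm V₂) (h₁ : σ₁ v₁ ≠ v₁) (h₂ : σ₂ v₂ ≠ v₂) :
    {u : V₁ // u ≠ v₁} ⊕ {w : V₂ // w ≠ v₂} → {u : V₁ // u ≠ v₁} ⊕ {w : V₂ // w ≠ v₂}
  | Sum.inl u => if h : σ₁ u = v₁ then Sum.inr ⟨σ₂ v₂, h₂⟩ else Sum.inl ⟨σ₁ u, h⟩
  | Sum.inr w => if h : σ₂ w = v₂ then Sum.inl ⟨σ₁ v₁, h₁⟩ else Sum.inr ⟨σ₂ w, h⟩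

lemma combFun_inj (σ₁ : Equiv.Perm V₁) (σ₂ : Equiv.Perm V₂) (h₁ : σ₁ v₁ ≠ v₁) (h₂ : σ₂ v₂ ≠ v₂) :
    Function.Injective (combFun σ₁ σ₂ h₁ h₂) := by
  rintro (u | w) (u' | w') h
  · simp only [combFun] at h
    split_ifs at h with g1 g2 g2
    · have := σ₁.injective (g1.trans g2.symm)
      rw [Subtype.ext this]
    · have h' := Sum.inl_injective h
      have := σ₁.injective (congrArg Subtype.val h')
      rw [Subtype.ext this]
  · simp only [combFun] at h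
    split_ifs at h with g1 g2 g2
    · have h' := congrArg Subtype.val (Sum.inr_injective h)
      exact absurd (σ₂.injective h').symm w'.2
    · have h' := congrArg Subtype.val (Sum.inl_injective h)
      exact absurd (σ₁.injective h') u.2
  · simp only [combFun] at h
    split_ifs at h with g1 g2 g2
    · have h' := congrArg Subtype.val (Sum.inl_injective h)
      exact absurd (σ₁.injective h').symm u'.2
    · have h' := congrArg Subtype.val (Sum.inr_injective h)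
      exact absurd (σ₂.injective h') w.2
  · simp only [combFun] at h
    split_ifs at h with g1 g2 g2
    · have := σ₂.injective (g1.trans g2.symm)
      rw [Subtype.ext this]
    · have h' := Sum.inr_injective h
      have := σ₂.injective (congrArg Subtype.val h')
      rw [Subtype.ext this]

lemma exists_comb [Finite V₁] [Finite V₂] {σ₁ : Equiv.Perm V₁} {σ₂ : Equiv.Perm V₂}
    (hσ₁ : IsHam G₁ σ₁) (hσ₂ : IsHam G₂ σ₂) (hM : NbMatch G₁ v₁ G₂ v₂ M)
    (m1 : ∀ u, σ₁ u = v₁ → M u (σ₂ v₂)) (m2 : ∀ w, σ₂ w = v₂ → M (σ₁ v₁) w) :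
    ∃ τ, IsHam (glue G₁ v₁ G₂ v₂ M) τ ∧
      (∀ u (hu : u ≠ v₁) (h : σ₁ u ≠ v₁), τ (Sum.inl ⟨u, hu⟩) = Sum.inl ⟨σ₁ u, h⟩) ∧
      (∀ w (hw : w ≠ v₂) (h : σ₂ w ≠ v₂), τ (Sum.inr ⟨w, hw⟩) = Sum.inr ⟨σ₂ w, h⟩) ∧
      (∀ u (hu : u ≠ v₁) (w) (hw : w ≠ v₂), σ₁ u = v₁ → σ₂ v₂ = w →
        τ (Sum.inl ⟨u, hu⟩) = Sum.inr ⟨w, hw⟩) ∧
      (∀ w (hw : w ≠ v₂) (u) (hu : u ≠ v₁), σ₂ w = v₂ → σ₁ v₁ = u →
        τ (Sum.inr ⟨w, hw⟩) = Sum.inl ⟨u, hu⟩) := by
  have h₁ := hσ₁.apply_ne v₁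
  have h₂ := hσ₂.apply_ne v₂
  let τ : Equiv.Perm ({u : V₁ // u ≠ v₁} ⊕ {w : V₂ // w ≠ v₂}) :=
    Equiv.ofBijective (combFun σ₁ σ₂ h₁ h₂)
      (Finite.injective_iff_bijective.1 (combFun_inj σ₁ σ₂ h₁ h₂))
  have t1 : ∀ u (hu : u ≠ v₁) (h : σ₁ u ≠ v₁), τ (Sum.inl ⟨u, hu⟩) = Sum.inl ⟨σ₁ u, h⟩ :=
    fun u hu h => dif_neg h
  have t2 : ∀ w (hw : w ≠ v₂) (h : σ₂ w ≠ v₂), τ (Sum.inr ⟨w, hw⟩) = Sum.inr ⟨σ₂ w, h⟩ :=
    fun u hu h => dif_neg h
  have t3 : ∀ u (hu : u ≠ v₁), σ₁ u = v₁ → τ (Sum.inl ⟨u, hu⟩) = Sum.inr ⟨σ₂ v₂, h₂⟩ :=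
    fun u hu h => dif_pos h
  have t4 : ∀ w (hw : w ≠ v₂), σ₂ w = v₂ → τ (Sum.inr ⟨w, hw⟩) = Sum.inl ⟨σ₁ v₁, h₁⟩ :=
    fun u hu h => dif_pos h
  refine ⟨τ, ⟨?_, ?_⟩, t1, t2, ?_, ?_⟩
  · rintro (⟨u, hu⟩ | ⟨w, hw⟩)
    · by_cases h : σ₁ u = v₁
      · rw [t3 u hu h]
        exact m1 u h
      · rw [t1 u hu h]
        exact hσ₁.1 u
    · by_cases h : σ₂ w = v₂
      · rw [t4 w hw h]
        exact m2 w h
      · rw [t2 w hw h]
        exact hσ₂.1 w
  · intro X hX hcl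
    have c1 : (∃ u, ∃ hu : u ≠ v₁, Sum.inl ⟨u, hu⟩ ∈ X) → Sum.inr ⟨σ₂ v₂, h₂⟩ ∈ X := by
      rintro ⟨u0, hu0, hX0⟩
      by_contra hcon
      have := hσ₁.2 {u | ∃ hu : u ≠ v₁, Sum.inl ⟨u, hu⟩ ∈ X} ⟨u0, hu0, hX0⟩ (by
        rintro u ⟨hu, huX⟩
        have hτ := hcl _ huX
        by_cases h : σ₁ u = v₁
        · rw [t3 u hu h] at hτ
          exact absurd hτ hcon
        · rw [t1 u hu h] at hτ
          exact ⟨h, hτ⟩)
      have hv : v₁ ∈ {u | ∃ hu : u ≠ v₁, Sum.inl ⟨u, hu⟩ ∈ X} := by rw [this]; trivial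
      obtain ⟨hu, -⟩ := hv
      exact hu rfl
    have c2 : (∃ w, ∃ hw : w ≠ v₂, Sum.inr ⟨w, hw⟩ ∈ X) → Sum.inl ⟨σ₁ v₁, h₁⟩ ∈ X := by
      rintro ⟨u0, hu0, hX0⟩
      by_contra hcon
      have := hσ₂.2 {u | ∃ hu : u ≠ v₂, Sum.inr ⟨u, hu⟩ ∈ X} ⟨u0, hu0, hX0⟩ (by
        rintro u ⟨hu, huX⟩
        have hτ := hcl _ huX
        by_cases h : σ₂ u = v₂
        · rw [t4 u hu h] at hτ
          exact absurd hτ hcon
        · rw [t2 u hu h] at hτ
          exact ⟨h, hτ⟩)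
      have hv : v₂ ∈ {u | ∃ hu : u ≠ v₂, Sum.inr ⟨u, hu⟩ ∈ X} := by rw [this]; trivial
      obtain ⟨hu, -⟩ := hv
      exact hu rfl
    have d1 : Sum.inr ⟨σ₂ v₂, h₂⟩ ∈ X := by
      obtain ⟨(⟨u, hu⟩ | ⟨w, hw⟩), hx⟩ := hX
      · exact c1 ⟨u, hu, hx⟩
      · exact c1 ⟨_, _, c2 ⟨w, hw, hx⟩⟩
    have d2 : Sum.inl ⟨σ₁ v₁, h₁⟩ ∈ X := c2 ⟨_, _, d1⟩
    have e1 := hσ₁.2 {u | ∀ hu : u ≠ v₁, Sum.inl ⟨u, hu⟩ ∈ X} ⟨v₁, fun h => absurd rfl h⟩ (by
      intro u hu hne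
      by_cases h : u = v₁
      · subst h
        exact d2
      · have hτ := hcl _ (hu h)
        rwa [t1 u h hne] at hτ)
    have e2 := hσ₂.2 {u | ∀ hu : u ≠ v₂, Sum.inr ⟨u, hu⟩ ∈ X} ⟨v₂, fun h => absurd rfl h⟩ (by
      intro u hu hne
      by_cases h : u = v₂
      · subst h
        exact d1
      · have hτ := hcl _ (hu h)
        rwa [t2 u h hne] at hτ)
    ext x
    simp only [Set.mem_univ, iff_true]
    rcases x with ⟨u, hu⟩ | ⟨w, hw⟩
    · have : u ∈ {u | ∀ hu : u ≠ v₁, Sum.inl ⟨u, hu⟩ ∈ X} := by rw [e1]; trivial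
      exact this hu
    · have : w ∈ {u | ∀ hu : u ≠ v₂, Sum.inr ⟨u, hu⟩ ∈ X} := by rw [e2]; trivial
      exact this hw
  · intro u hu w hw h g
    subst g
    exact t3 u hu h
  · intro w hw u hu h g
    subst g
    exact t4 w hw h

end Comb

lemma ncard_sum {A B : Type} [Finite A] [Finite B] (S : Set (A ⊕ B)) :
    S.ncard = (Sum.inl ⁻¹' S).ncard + (Sum.inr ⁻¹' S).ncard := by
  have h : S = Sum.inl '' (Sum.inl ⁻¹' S) ∪ Sum.inr '' (Sum.inr ⁻¹' S) := by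
    ext (x | x) <;> simp
  conv_lhs => rw [h]
  rw [Set.ncard_union_eq, Set.ncard_image_of_injective _ Sum.inl_injective,
    Set.ncard_image_of_injective _ Sum.inr_injective]
  rw [Set.disjoint_left]
  rintro _ ⟨a, -, rfl⟩ ⟨b, -, hb⟩
  cases hb

lemma ncard_sub {A : Type} (v : A) (S : Set A) :
    {x : {u // u ≠ v} | (x : A) ∈ S}.ncard = (S \ {v}).ncard := by
  rw [← Set.ncard_image_of_injective _ Subtype.val_injective]
  congr 1
  ext x
  constructor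
  · rintro ⟨y, hy, rfl⟩
    exact ⟨hy, y.2⟩
  · rintro ⟨hx, hxv⟩
    exact ⟨⟨x, hxv⟩, hx, rfl⟩

lemma glue_reg [Finite V₁] [Finite V₂] (h₁ : ∀ v, {w | G₁.Adj v w}.ncard = 3)
    (h₂ : ∀ v, {w | G₂.Adj v w}.ncard = 3) (hM : NbMatch G₁ v₁ G₂ v₂ M) (x) :
    {w | (glue G₁ v₁ G₂ v₂ M).Adj x w}.ncard = 3 := by
  rw [ncard_sum]
  rcases x with ⟨u, hu⟩ | ⟨u, hu⟩
  · have e1 : (Sum.inl ⁻¹' {w | (glue G₁ v₁ G₂ v₂ M).Adj (Sum.inl ⟨u, hu⟩) w}).ncard =
        ({w | G₁.Adj u w} \ {v₁}).ncard := ncard_sub v₁ {w | G₁.Adj u w}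
    rw [e1]
    by_cases h : G₁.Adj u v₁
    · obtain ⟨w0, hw0⟩ := hM.tot u h.symm
      have hw0' : w0 ≠ v₂ := (hM.right _ _ hw0).ne'
      have e2 : Sum.inr ⁻¹' {w | (glue G₁ v₁ G₂ v₂ M).Adj (Sum.inl ⟨u, hu⟩) w} =
          {(⟨w0, hw0'⟩ : {w : V₂ // w ≠ v₂})} := by
        ext ⟨w, hw⟩
        simp only [Set.mem_preimage, Set.mem_ofPred_eq, glue_lr, Set.mem_singleton_iff,
          Subtype.mk.injEq]
        exact ⟨fun h' => hM.func _ _ _ h' hw0, fun h' => h' ▸ hw0⟩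
      rw [e2, Set.ncard_singleton, Set.ncard_sdiff_singleton_of_mem (show v₁ ∈ {w | G₁.Adj u w} from h),
        h₁ u]
    · have e2 : Sum.inr ⁻¹' {w | (glue G₁ v₁ G₂ v₂ M).Adj (Sum.inl ⟨u, hu⟩) w} =
          (∅ : Set {w : V₂ // w ≠ v₂}) := by
        ext ⟨w, hw⟩
        simp only [Set.mem_preimage, Set.mem_ofPred_eq, glue_lr, Set.mem_empty_iff_false, iff_false]
        exact fun h' => h (hM.left _ _ h').symm
      rw [e2, Set.ncard_empty, Set.sdiff_singleton_eq_self (show v₁ ∉ {w | G₁.Adj u w} from h), h₁ u]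
  · have e1 : (Sum.inr ⁻¹' {w | (glue G₁ v₁ G₂ v₂ M).Adj (Sum.inr ⟨u, hu⟩) w}).ncard =
        ({w | G₂.Adj u w} \ {v₂}).ncard := ncard_sub v₂ {w | G₂.Adj u w}
    rw [e1]
    by_cases h : G₂.Adj u v₂
    · obtain ⟨w0, hw0⟩ := hM.surj u h.symm
      have hw0' : w0 ≠ v₁ := (hM.left _ _ hw0).ne'
      have e2 : Sum.inl ⁻¹' {w | (glue G₁ v₁ G₂ v₂ M).Adj (Sum.inr ⟨u, hu⟩) w} =
          {(⟨w0, hw0'⟩ : {w : V₁ // w ≠ v₁})} := by
        ext ⟨w, hw⟩
        simp only [Set.mem_preimage, Set.mem_ofPred_eq, glue_rl, Set.mem_singleton_iff,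
          Subtype.mk.injEq]
        exact ⟨fun h' => hM.inj _ _ _ h' hw0, fun h' => h' ▸ hw0⟩
      rw [e2, Set.ncard_singleton, Set.ncard_sdiff_singleton_of_mem (show v₂ ∈ {w | G₂.Adj u w} from h),
        h₂ u]
    · have e2 : Sum.inl ⁻¹' {w | (glue G₁ v₁ G₂ v₂ M).Adj (Sum.inr ⟨u, hu⟩) w} =
          (∅ : Set {w : V₁ // w ≠ v₁}) := by
        ext ⟨w, hw⟩
        simp only [Set.mem_preimage, Set.mem_ofPred_eq, glue_rl, Set.mem_empty_iff_false, iff_false]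
        exact fun h' => h (hM.right _ _ h').symm
      rw [e2, Set.ncard_empty, Set.sdiff_singleton_eq_self (show v₂ ∉ {w | G₂.Adj u w} from h), h₂ u]

lemma glue_tri (t₁ : ∀ a b c, G₁.Adj a b → G₁.Adj b c → G₁.Adj c a → False)
    (t₂ : ∀ a b c, G₂.Adj a b → G₂.Adj b c → G₂.Adj c a → False)
    (hM : NbMatch G₁ v₁ G₂ v₂ M) (a b c) (h1 : (glue G₁ v₁ G₂ v₂ M).Adj a b)
    (h2 : (glue G₁ v₁ G₂ v₂ M).Adj b c) (h3 : (glue G₁ v₁ G₂ v₂ M).Adj c a) : False := by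
  rcases a with a | a <;> rcases b with b | b <;> rcases c with c | c <;>
    simp only [glue_ll, glue_rr, glue_lr, glue_rl] at h1 h2 h3
  · exact t₁ _ _ _ h1 h2 h3
  · exact h1.ne (hM.inj _ _ _ h3 h2)
  · exact h3.ne (hM.inj _ _ _ h2 h1)
  · exact h2.ne (hM.func _ _ _ h1 h3)
  · exact h2.ne (hM.inj _ _ _ h1 h3)
  · exact h3.ne (hM.func _ _ _ h2 h1)
  · exact h1.ne (hM.func _ _ _ h3 h2)
  · exact t₂ _ _ _ h1 h2 h3

lemma glue_quad (t₁ : ∀ a b c, G₁.Adj a b → G₁.Adj b c → G₁.Adj c a → False)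
    (q₁ : ∀ a b c d, G₁.Adj a b → G₁.Adj b c → G₁.Adj c d → G₁.Adj d a → a ≠ c → b ≠ d → False)
    (q₂ : ∀ a b c d, G₂.Adj a b → G₂.Adj b c → G₂.Adj c d → G₂.Adj d a → a ≠ c → b ≠ d → False)
    (hM : NbMatch G₁ v₁ G₂ v₂ M) (a b c d) (h1 : (glue G₁ v₁ G₂ v₂ M).Adj a b)
    (h2 : (glue G₁ v₁ G₂ v₂ M).Adj b c) (h3 : (glue G₁ v₁ G₂ v₂ M).Adj c d)
    (h4 : (glue G₁ v₁ G₂ v₂ M).Adj d a) (hac : a ≠ c) (hbd : b ≠ d) : False := by
  have ei : ∀ u u' : {u : V₁ // u ≠ v₁}, (u : V₁) = u' → (Sum.inl u :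
    {u : V₁ // u ≠ v₁} ⊕ {w : V₂ // w ≠ v₂}) = Sum.inl u' := fun u u' h => by rw [Subtype.ext h]
  have er : ∀ u u' : {w : V₂ // w ≠ v₂}, (u : V₂) = u' → (Sum.inr u :
    {u : V₁ // u ≠ v₁} ⊕ {w : V₂ // w ≠ v₂}) = Sum.inr u' := fun u u' h => by rw [Subtype.ext h]
  rcases a with a | a <;> rcases b with b | b <;> rcases c with c | c <;> rcases d with d | d <;>
    simp only [glue_ll, glue_rr, glue_lr, glue_rl] at h1 h2 h3 h4
  · exact q₁ _ _ _ _ h1 h2 h3 h4 (fun h => hac (ei _ _ h)) (fun h => hbd (ei _ _ h))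
  · exact hac (ei _ _ (hM.inj _ _ _ h4 h3))
  · exact hbd (ei _ _ (hM.inj _ _ _ h2 h3))
  · exact t₁ _ _ _ (hM.left _ _ h4) h1 (hM.left _ _ h2).symm
  · exact hac (ei _ _ (hM.inj _ _ _ h1 h2))
  · exact hac (ei _ _ (hM.inj _ _ _ h1 h2))
  · exact t₁ _ _ _ (hM.left _ _ h3) h4 (hM.left _ _ h1).symm
  · exact hbd (er _ _ (hM.func _ _ _ h1 h4))
  · exact hbd (ei _ _ (hM.inj _ _ _ h1 h4))
  · exact t₁ _ _ _ (hM.left _ _ h1) h2 (hM.left _ _ h3).symm
  · exact hac (er _ _ (hM.func _ _ _ h1 h2))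
  · exact hac (er _ _ (hM.func _ _ _ h1 h2))
  · exact t₁ _ _ _ (hM.left _ _ h2) h3 (hM.left _ _ h4).symm
  · exact hbd (er _ _ (hM.func _ _ _ h2 h3))
  · exact hac (er _ _ (hM.func _ _ _ h4 h3))
  · exact q₂ _ _ _ _ h1 h2 h3 h4 (fun h => hac (er _ _ h)) (fun h => hbd (er _ _ h))


lemma Good.third {V : Type} {G : SimpleGraph V} (h : Good G) (a b : V) : ∃ c, c ≠ a ∧ c ≠ b := by
  obtain ⟨w, hw, hw'⟩ := h.other a b
  exact ⟨w, hw.ne', hw'⟩

section E5

variable [Finite V₁] [Finite V₂]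

lemma exists_comb' {σ₁ : Equiv.Perm V₁} {σ₂ : Equiv.Perm V₂}
    (hσ₁ : IsHam G₁ σ₁) (hσ₂ : IsHam G₂ σ₂) (hM : NbMatch G₁ v₁ G₂ v₂ M) {um up : V₁} {wm wp : V₂}
    (g1 : σ₁ um = v₁) (g2 : σ₁ v₁ = up) (g3 : σ₂ wp = v₂) (g4 : σ₂ v₂ = wm)
    (m1 : M um wm) (m2 : M up wp) :
    ∃ τ, IsHam (glue G₁ v₁ G₂ v₂ M) τ ∧
      (∀ u (hu : u ≠ v₁) (h : σ₁ u ≠ v₁), τ (Sum.inl ⟨u, hu⟩) = Sum.inl ⟨σ₁ u, h⟩) ∧
      (∀ w (hw : w ≠ v₂) (h : σ₂ w ≠ v₂), τ (Sum.inr ⟨w, hw⟩) = Sum.inr ⟨σ₂ w, h⟩) ∧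
      (∀ u (hu : u ≠ v₁) (w) (hw : w ≠ v₂), σ₁ u = v₁ → σ₂ v₂ = w →
        τ (Sum.inl ⟨u, hu⟩) = Sum.inr ⟨w, hw⟩) ∧
      (∀ w (hw : w ≠ v₂) (u) (hu : u ≠ v₁), σ₂ w = v₂ → σ₁ v₁ = u →
        τ (Sum.inr ⟨w, hw⟩) = Sum.inl ⟨u, hu⟩) := by
  classical
  refine exists_comb hσ₁ hσ₂ hM ?_ ?_
  · intro u hu
    rw [σ₁.injective (hu.trans g1.symm), g4]
    exact m1
  · intro w hw
    rw [σ₂.injective (hw.trans g3.symm), g2]
    exact m2

/-- Conclusion of the extension lemma for five vertices of the glued graph. -/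
def Ext5 (G : SimpleGraph V₁) (a b c d e : V₁) : Prop :=
  ∃ σ, IsHam G σ ∧ σ a = b ∧ σ b = c ∧ σ c = d ∧ σ d = e

omit [Finite V₁] in
lemma Ext5.rev {G : SimpleGraph V₁} {a b c d e : V₁} (h : Ext5 G e d c b a) :
    Ext5 G a b c d e := by
  obtain ⟨σ, hσ, h1, h2, h3, h4⟩ := h
  exact ⟨σ.symm, hσ.inv, by rw [← h4]; simp, by rw [← h3]; simp, by rw [← h2]; simp,
    by rw [← h1]; simp⟩

variable (h₁ : Good G₁) (h₂ : Good G₂) (hM : NbMatch G₁ v₁ G₂ v₂ M)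
include h₁ h₂ hM

lemma ext_LLLLL (a b c d e : {u : V₁ // u ≠ v₁}) (hab : G₁.Adj a b) (hbc : G₁.Adj b c)
    (hcd : G₁.Adj c d) (hde : G₁.Adj d e) (hac : a ≠ c) (hbd : b ≠ d) (hce : c ≠ e) :
    Ext5 (glue G₁ v₁ G₂ v₂ M) (Sum.inl a) (Sum.inl b) (Sum.inl c) (Sum.inl d) (Sum.inl e) := by
  obtain ⟨a, ha⟩ := a
  obtain ⟨b, hb⟩ := b
  obtain ⟨c, hc⟩ := c
  obtain ⟨d, hd⟩ := d
  obtain ⟨e, he⟩ := e
  simp only [ne_eq, Subtype.mk.injEq] at hac hbd hce
  obtain ⟨σ₁, hσ₁, s1, s2, s3, s4⟩ := h₁.e5 a b c d e hab hbc hcd hde hac hbd hce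
  have g1 : σ₁ (σ₁.symm v₁) = v₁ := Equiv.apply_symm_apply _ _
  have a1 : G₁.Adj v₁ (σ₁.symm v₁) := by
    have := hσ₁.1 (σ₁.symm v₁)
    rw [g1] at this
    exact this.symm
  obtain ⟨wm, hwm⟩ := hM.tot _ a1
  obtain ⟨wp, hwp⟩ := hM.tot _ (hσ₁.1 v₁)
  have hne : wp ≠ wm := by
    rintro rfl
    have h := hM.inj _ _ _ hwp hwm
    have h' := hσ₁.apply_apply_ne h₁.third v₁
    rw [h] at h'
    exact h' g1
  obtain ⟨σ₂, hσ₂, r1, r2⟩ := h₂.e3 wp v₂ wm (hM.right _ _ hwp).symm (hM.right _ _ hwm) hne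
  obtain ⟨τ, hτ, t1, t2, t3, t4⟩ := exists_comb' hσ₁ hσ₂ hM g1 rfl r1 r2 hwm hwp
  subst s1
  subst s2
  subst s3
  subst s4
  exact ⟨τ, hτ, t1 _ _ hb, t1 _ _ hc, t1 _ _ hd, t1 _ _ he⟩

lemma ext_RRRRR (a b c d e : {u : V₂ // u ≠ v₂}) (hab : G₂.Adj a b) (hbc : G₂.Adj b c)
    (hcd : G₂.Adj c d) (hde : G₂.Adj d e) (hac : a ≠ c) (hbd : b ≠ d) (hce : c ≠ e) :
    Ext5 (glue G₁ v₁ G₂ v₂ M) (Sum.inr a) (Sum.inr b) (Sum.inr c) (Sum.inr d) (Sum.inr e) := by
  obtain ⟨a, ha⟩ := a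
  obtain ⟨b, hb⟩ := b
  obtain ⟨c, hc⟩ := c
  obtain ⟨d, hd⟩ := d
  obtain ⟨e, he⟩ := e
  simp only [ne_eq, Subtype.mk.injEq] at hac hbd hce
  obtain ⟨σ₂, hσ₂, s1, s2, s3, s4⟩ := h₂.e5 a b c d e hab hbc hcd hde hac hbd hce
  have g1 : σ₂ (σ₂.symm v₂) = v₂ := Equiv.apply_symm_apply _ _
  have a1 : G₂.Adj v₂ (σ₂.symm v₂) := by
    have := hσ₂.1 (σ₂.symm v₂)
    rw [g1] at this
    exact this.symm
  obtain ⟨um, hum⟩ := hM.surj _ (hσ₂.1 v₂)
  obtain ⟨up, hup⟩ := hM.surj _ a1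
  have hne : um ≠ up := by
    rintro rfl
    have h := hM.func _ _ _ hum hup
    have h' := hσ₂.apply_apply_ne h₂.third v₂
    rw [h] at h'
    exact h' g1
  obtain ⟨σ₁, hσ₁, r1, r2⟩ := h₁.e3 um v₁ up (hM.left _ _ hum).symm (hM.left _ _ hup) hne
  obtain ⟨τ, hτ, t1, t2, t3, t4⟩ := exists_comb' hσ₁ hσ₂ hM r1 r2 g1 rfl hum hup
  subst s1
  subst s2
  subst s3
  subst s4
  exact ⟨τ, hτ, t2 _ _ hb, t2 _ _ hc, t2 _ _ hd, t2 _ _ he⟩

lemma ext_LLLLR (a b c d : {u : V₁ // u ≠ v₁}) (e : {w : V₂ // w ≠ v₂}) (hab : G₁.Adj a b)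
    (hbc : G₁.Adj b c) (hcd : G₁.Adj c d) (hde : M d e) (hac : a ≠ c) (hbd : b ≠ d) :
    Ext5 (glue G₁ v₁ G₂ v₂ M) (Sum.inl a) (Sum.inl b) (Sum.inl c) (Sum.inl d) (Sum.inr e) := by
  obtain ⟨a, ha⟩ := a
  obtain ⟨b, hb⟩ := b
  obtain ⟨c, hc⟩ := c
  obtain ⟨d, hd⟩ := d
  obtain ⟨e, he⟩ := e
  simp only [ne_eq, Subtype.mk.injEq] at hac hbd
  simp only at hde
  obtain ⟨σ₁, hσ₁, s1, s2, s3, s4⟩ := h₁.e5 a b c d v₁ hab hbc hcd (hM.left _ _ hde).symm hac hbd hc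
  obtain ⟨wp, hwp⟩ := hM.tot _ (hσ₁.1 v₁)
  have hne : wp ≠ e := by
    rintro rfl
    have h := hM.inj _ _ _ hwp hde
    have h' := hσ₁.apply_apply_ne h₁.third v₁
    rw [h] at h'
    exact h' s4
  obtain ⟨σ₂, hσ₂, r1, r2⟩ := h₂.e3 wp v₂ e (hM.right _ _ hwp).symm (hM.right _ _ hde) hne
  obtain ⟨τ, hτ, t1, t2, t3, t4⟩ := exists_comb' hσ₁ hσ₂ hM s4 rfl r1 r2 hde hwp
  refine ⟨τ, hτ, ?_, ?_, ?_, t3 _ _ _ _ s4 r2⟩
  · subst s1
    exact t1 _ _ hb
  · subst s2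
    exact t1 _ _ hc
  · subst s3
    exact t1 _ _ hd

lemma ext_LLLRR (a b c : {u : V₁ // u ≠ v₁}) (d e : {w : V₂ // w ≠ v₂}) (hab : G₁.Adj a b)
    (hbc : G₁.Adj b c) (hcd : M c d) (hde : G₂.Adj d e) (hac : a ≠ c) :
    Ext5 (glue G₁ v₁ G₂ v₂ M) (Sum.inl a) (Sum.inl b) (Sum.inl c) (Sum.inr d) (Sum.inr e) := by
  obtain ⟨a, ha⟩ := a
  obtain ⟨b, hb⟩ := b
  obtain ⟨c, hc⟩ := c
  obtain ⟨d, hd⟩ := d
  obtain ⟨e, he⟩ := e
  simp only [ne_eq, Subtype.mk.injEq] at hac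
  simp only at hcd
  obtain ⟨σ₁, hσ₁, s1, s2, s3⟩ := h₁.e4 a b c v₁ hab hbc (hM.left _ _ hcd).symm hac hb
  obtain ⟨wp, hwp⟩ := hM.tot _ (hσ₁.1 v₁)
  have hne : wp ≠ d := by
    rintro rfl
    have h := hM.inj _ _ _ hwp hcd
    have h' := hσ₁.apply_apply_ne h₁.third v₁
    rw [h] at h'
    exact h' s3
  obtain ⟨σ₂, hσ₂, r1, r2, r3⟩ := h₂.e4 wp v₂ d e (hM.right _ _ hwp).symm (hM.right _ _ hcd) hde
    hne he.symm
  obtain ⟨τ, hτ, t1, t2, t3, t4⟩ := exists_comb' hσ₁ hσ₂ hM s3 rfl r1 r2 hcd hwp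
  refine ⟨τ, hτ, ?_, ?_, t3 _ _ _ _ s3 r2, ?_⟩
  · subst s1
    exact t1 _ _ hb
  · subst s2
    exact t1 _ _ hc
  · subst r3
    exact t2 _ _ he

lemma ext_LLRRR (a b : {u : V₁ // u ≠ v₁}) (c d e : {w : V₂ // w ≠ v₂}) (hab : G₁.Adj a b)
    (hbc : M b c) (hcd : G₂.Adj c d) (hde : G₂.Adj d e) (hce : c ≠ e) :
    Ext5 (glue G₁ v₁ G₂ v₂ M) (Sum.inl a) (Sum.inl b) (Sum.inr c) (Sum.inr d) (Sum.inr e) := by
  obtain ⟨a, ha⟩ := a
  obtain ⟨b, hb⟩ := b
  obtain ⟨c, hc⟩ := c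
  obtain ⟨d, hd⟩ := d
  obtain ⟨e, he⟩ := e
  simp only [ne_eq, Subtype.mk.injEq] at hce
  simp only at hbc
  obtain ⟨σ₁, hσ₁, s1, s2⟩ := h₁.e3 a b v₁ hab (hM.left _ _ hbc).symm ha
  obtain ⟨wp, hwp⟩ := hM.tot _ (hσ₁.1 v₁)
  have hne : wp ≠ c := by
    rintro rfl
    have h := hM.inj _ _ _ hwp hbc
    have h' := hσ₁.apply_apply_ne h₁.third v₁
    rw [h] at h'
    exact h' s2
  obtain ⟨σ₂, hσ₂, r1, r2, r3, r4⟩ := h₂.e5 wp v₂ c d e (hM.right _ _ hwp).symm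
    (hM.right _ _ hbc) hcd hde hne hd.symm hce
  obtain ⟨τ, hτ, t1, t2, t3, t4⟩ := exists_comb' hσ₁ hσ₂ hM s2 rfl r1 r2 hbc hwp
  refine ⟨τ, hτ, ?_, t3 _ _ _ _ s2 r2, ?_, ?_⟩
  · subst s1
    exact t1 _ _ hb
  · subst r3
    exact t2 _ _ hd
  · subst r4
    exact t2 _ _ he

lemma ext_LRRRR (a : {u : V₁ // u ≠ v₁}) (b c d e : {w : V₂ // w ≠ v₂})
    (hab : M a b) (hbc : G₂.Adj b c) (hcd : G₂.Adj c d) (hde : G₂.Adj d e) (hbd : b ≠ d)
    (hce : c ≠ e) :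
    Ext5 (glue G₁ v₁ G₂ v₂ M) (Sum.inl a) (Sum.inr b) (Sum.inr c) (Sum.inr d) (Sum.inr e) := by
  obtain ⟨a, ha⟩ := a
  obtain ⟨b, hb⟩ := b
  obtain ⟨c, hc⟩ := c
  obtain ⟨d, hd⟩ := d
  obtain ⟨e, he⟩ := e
  simp only [ne_eq, Subtype.mk.injEq] at hce hbd
  simp only at hab
  obtain ⟨σ₂, hσ₂, r1, r2, r3, r4⟩ := h₂.e5 v₂ b c d e (hM.right _ _ hab) hbc hcd hde hc.symm
    hbd hce
  have g1 : σ₂ (σ₂.symm v₂) = v₂ := Equiv.apply_symm_apply _ _
  have a1 : G₂.Adj v₂ (σ₂.symm v₂) := by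
    have := hσ₂.1 (σ₂.symm v₂)
    rw [g1] at this
    exact this.symm
  obtain ⟨up, hup⟩ := hM.surj _ a1
  have hne : a ≠ up := by
    rintro rfl
    have h := hM.func _ _ _ hab hup
    have h' := hσ₂.apply_apply_ne h₂.third v₂
    rw [r1, h] at h'
    exact h' g1
  obtain ⟨σ₁, hσ₁, s1, s2⟩ := h₁.e3 a v₁ up (hM.left _ _ hab).symm (hM.left _ _ hup) hne
  obtain ⟨τ, hτ, t1, t2, t3, t4⟩ := exists_comb' hσ₁ hσ₂ hM s1 s2 g1 r1 hab hup
  refine ⟨τ, hτ, t3 _ _ _ _ s1 r1, ?_, ?_, ?_⟩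
  · subst r2
    exact t2 _ _ hc
  · subst r3
    exact t2 _ _ hd
  · subst r4
    exact t2 _ _ he

end E5

lemma glue_good [Finite V₁] [Finite V₂] (h₁ : Good G₁) (h₂ : Good G₂) (hM : NbMatch G₁ v₁ G₂ v₂ M) :
    Good (glue G₁ v₁ G₂ v₂ M) := by
  have ei : ∀ u u' : {u : V₁ // u ≠ v₁}, (u : V₁) = u' → (Sum.inl u :
    {u : V₁ // u ≠ v₁} ⊕ {w : V₂ // w ≠ v₂}) = Sum.inl u' := fun u u' h => by rw [Subtype.ext h]
  have er : ∀ u u' : {w : V₂ // w ≠ v₂}, (u : V₂) = u' → (Sum.inr u :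
    {u : V₁ // u ≠ v₁} ⊕ {w : V₂ // w ≠ v₂}) = Sum.inr u' := fun u u' h => by rw [Subtype.ext h]
  refine ⟨glue_reg h₁.reg h₂.reg hM, glue_tri h₁.tri h₂.tri hM,
    glue_quad h₁.tri h₁.quad h₂.quad hM, ?_⟩
  intro a b c d e h1 h2 h3 h4 hac hbd hce
  rcases a with a | a <;> rcases b with b | b <;> rcases c with c | c <;> rcases d with d | d <;>
    rcases e with e | e <;>
    simp only [glue_ll, glue_rr, glue_lr, glue_rl] at h1 h2 h3 h4
  · -- LLLLL
    exact ext_LLLLL h₁ h₂ hM a b c d e h1 h2 h3 h4 (fun h => hac (by rw [h])) (fun h => hbd (by rw [h])) (fun h => hce (by rw [h]))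
  · -- LLLLR
    exact ext_LLLLR h₁ h₂ hM a b c d e h1 h2 h3 h4 (fun h => hac (by rw [h])) (fun h => hbd (by rw [h]))
  · -- LLLRL
    exact absurd (ei _ _ (hM.inj _ _ _ h3 h4)) hce
  · -- LLLRR
    exact ext_LLLRR h₁ h₂ hM a b c d e h1 h2 h3 h4 (fun h => hac (by rw [h]))
  · -- LLRLL
    exact absurd (ei _ _ (hM.inj _ _ _ h2 h3)) hbd
  · -- LLRLR
    exact absurd (ei _ _ (hM.inj _ _ _ h2 h3)) hbd
  · -- LLRRL
    exact absurd (hM.right _ _ h2) (fun g => h₂.tri _ _ _ g h3 (hM.right _ _ h4).symm)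
  · -- LLRRR
    exact ext_LLRRR h₁ h₂ hM a b c d e h1 h2 h3 h4 (fun h => hce (by rw [h]))
  · -- LRLLL
    exact absurd (ei _ _ (hM.inj _ _ _ h1 h2)) hac
  · -- LRLLR
    exact absurd (ei _ _ (hM.inj _ _ _ h1 h2)) hac
  · -- LRLRL
    exact absurd (ei _ _ (hM.inj _ _ _ h1 h2)) hac
  · -- LRLRR
    exact absurd (ei _ _ (hM.inj _ _ _ h1 h2)) hac
  · -- LRRLL
    exact absurd (hM.right _ _ h1) (fun g => h₂.tri _ _ _ g h2 (hM.right _ _ h3).symm)
  · -- LRRLR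
    exact absurd (er _ _ (hM.func _ _ _ h3 h4)) hce
  · -- LRRRL
    exact absurd (hM.right _ _ h1) (fun g => h₂.quad _ _ _ _ g h2 h3 (hM.right _ _ h4).symm c.2.symm (fun h => hbd (er _ _ h)))
  · -- LRRRR
    exact ext_LRRRR h₁ h₂ hM a b c d e h1 h2 h3 h4 (fun h => hbd (by rw [h])) (fun h => hce (by rw [h]))
  · -- RLLLL
    exact Ext5.rev (ext_LLLLR h₁ h₂ hM e d c b a h4.symm h3.symm h2.symm h1 (fun h => hce.symm (by rw [h])) (fun h => hbd.symm (by rw [h])))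
  · -- RLLLR
    exact absurd (hM.left _ _ h1) (fun g => h₁.quad _ _ _ _ g h2 h3 (hM.left _ _ h4).symm c.2.symm (fun h => hbd (ei _ _ h)))
  · -- RLLRL
    exact absurd (ei _ _ (hM.inj _ _ _ h3 h4)) hce
  · -- RLLRR
    exact absurd (hM.left _ _ h1) (fun g => h₁.tri _ _ _ g h2 (hM.left _ _ h3).symm)
  · -- RLRLL
    exact absurd (er _ _ (hM.func _ _ _ h1 h2)) hac
  · -- RLRLR
    exact absurd (er _ _ (hM.func _ _ _ h1 h2)) hac
  · -- RLRRL
    exact absurd (er _ _ (hM.func _ _ _ h1 h2)) hac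
  · -- RLRRR
    exact absurd (er _ _ (hM.func _ _ _ h1 h2)) hac
  · -- RRLLL
    exact Ext5.rev (ext_LLLRR h₁ h₂ hM e d c b a h4.symm h3.symm h2 h1.symm (fun h => hce.symm (by rw [h])))
  · -- RRLLR
    exact absurd (hM.left _ _ h2) (fun g => h₁.tri _ _ _ g h3 (hM.left _ _ h4).symm)
  · -- RRLRL
    exact absurd (er _ _ (hM.func _ _ _ h2 h3)) hbd
  · -- RRLRR
    exact absurd (er _ _ (hM.func _ _ _ h2 h3)) hbd
  · -- RRRLL
    exact Ext5.rev (ext_LLRRR h₁ h₂ hM e d c b a h4.symm h3 h2.symm h1.symm (fun h => hac.symm (by rw [h])))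
  · -- RRRLR
    exact absurd (er _ _ (hM.func _ _ _ h3 h4)) hce
  · -- RRRRL
    exact Ext5.rev (ext_LRRRR h₁ h₂ hM e d c b a h4 h3.symm h2.symm h1.symm (fun h => hbd.symm (by rw [h])) (fun h => hac.symm (by rw [h])))
  · -- RRRRR
    exact ext_RRRRR h₁ h₂ hM a b c d e h1 h2 h3 h4 (fun h => hac (by rw [h])) (fun h => hbd (by rw [h])) (fun h => hce (by rw [h]))

end Glue



section Bad

variable {V₁ V₂ : Type} {G₁ : SimpleGraph V₁} {v₁ : V₁} {G₂ : SimpleGraph V₂} {v₂ : V₂}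
  {M : V₁ → V₂ → Prop}

lemma bad_path (hM : NbMatch G₁ v₁ G₂ v₂ M)
    {τ : Equiv.Perm ({u : V₁ // u ≠ v₁} ⊕ {w : V₂ // w ≠ v₂})}
    (hτ : IsHam (glue G₁ v₁ G₂ v₂ M) τ) (hg : Good (glue G₁ v₁ G₂ v₂ M))
    {x y : {u : V₁ // u ≠ v₁}} {p q r s y0 : {w : V₂ // w ≠ v₂}} {t : V₂}
    (ht : ∀ w, G₂.Adj v₂ w → w = p ∨ w = s ∨ w = t)
    (hy0 : y0 ≠ p ∧ y0 ≠ q ∧ y0 ≠ r ∧ y0 ≠ s)
    (g1 : τ (Sum.inl x) = Sum.inr p) (g2 : τ (Sum.inr p) = Sum.inr q)
    (g3 : τ (Sum.inr q) = Sum.inr r) (g4 : τ (Sum.inr r) = Sum.inr s)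
    (g5 : τ (Sum.inr s) = Sum.inl y) : False := by
  by_cases H : ∃ w u, (w ≠ p ∧ w ≠ q ∧ w ≠ r ∧ w ≠ s) ∧ τ (Sum.inr w) = Sum.inl u
  · obtain ⟨w, u, hw, hwu⟩ := H
    have hMuw : M u w := by
      have := hτ.1 (Sum.inr w)
      rw [hwu] at this
      exact this
    have hwt : (w : V₂) = t := by
      rcases ht _ (hM.right _ _ hMuw) with h | h | h
      · exact absurd (Subtype.ext h) hw.1
      · exact absurd (Subtype.ext h) hw.2.2.2
      · exact h
    have h := hτ.2 {z | ∀ w, (w ≠ p ∧ w ≠ q ∧ w ≠ r ∧ w ≠ s) → z ≠ Sum.inr w}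
      ⟨Sum.inl x, fun w _ h => by cases h⟩ (by
        intro z hz w' hw' hzw'
        rcases z with u' | w''
        · have hM' : M u' w' := by
            have := hτ.1 (Sum.inl u')
            rw [hzw'] at this
            exact this
          have hwt' : (w' : V₂) = t := by
            rcases ht _ (hM.right _ _ hM') with h | h | h
            · exact absurd (Subtype.ext h) hw'.1
            · exact absurd (Subtype.ext h) hw'.2.2.2
            · exact h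
          have e1 : w' = w := Subtype.ext (hwt'.trans hwt.symm)
          subst e1
          have e2 : u' = u := Subtype.ext (hM.inj _ _ _ hM' hMuw)
          subst e2
          exact hτ.apply_apply_ne hg.third (Sum.inl u') (by rw [hzw', hwu])
        · have hw'' : w'' = p ∨ w'' = q ∨ w'' = r ∨ w'' = s := by
            by_contra hcon
            push Not at hcon
            exact hz w'' hcon rfl
          rcases hw'' with rfl | rfl | rfl | rfl
          · rw [g2] at hzw'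
            exact hw'.2.1 (Sum.inr_injective hzw').symm
          · rw [g3] at hzw'
            exact hw'.2.2.1 (Sum.inr_injective hzw').symm
          · rw [g4] at hzw'
            exact hw'.2.2.2 (Sum.inr_injective hzw').symm
          · rw [g5] at hzw'
            cases hzw')
    have h0 : Sum.inr y0 ∈ {z : {u : V₁ // u ≠ v₁} ⊕ {w : V₂ // w ≠ v₂} |
      ∀ w, (w ≠ p ∧ w ≠ q ∧ w ≠ r ∧ w ≠ s) → z ≠ Sum.inr w} := by rw [h]; trivial
    exact h0 y0 hy0 rfl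
  · push Not at H
    have h := hτ.2 {z | ∃ w, (w ≠ p ∧ w ≠ q ∧ w ≠ r ∧ w ≠ s) ∧ z = Sum.inr w}
      ⟨Sum.inr y0, y0, hy0, rfl⟩ (by
        rintro z ⟨w, hw, rfl⟩
        obtain ⟨w', hw'⟩ : ∃ w', τ (Sum.inr w) = Sum.inr w' := by
          rcases hz : τ (Sum.inr w) with u | w'
          · exact absurd hz (H w u hw)
          · exact ⟨w', rfl⟩
        refine ⟨w', ⟨?_, ?_, ?_, ?_⟩, hw'⟩
        · rintro rfl
          have := τ.injective (hw'.trans g1.symm)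
          cases this
        · rintro rfl
          have := τ.injective (hw'.trans g2.symm)
          exact hw.1 (Sum.inr_injective this)
        · rintro rfl
          have := τ.injective (hw'.trans g3.symm)
          exact hw.2.1 (Sum.inr_injective this)
        · rintro rfl
          have := τ.injective (hw'.trans g4.symm)
          exact hw.2.2.1 (Sum.inr_injective this))
    have h0 : Sum.inl x ∈ {z : {u : V₁ // u ≠ v₁} ⊕ {w : V₂ // w ≠ v₂} |
      ∃ w, (w ≠ p ∧ w ≠ q ∧ w ≠ r ∧ w ≠ s) ∧ z = Sum.inr w} := by rw [h]; trivial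
    obtain ⟨w, -, hw⟩ := h0
    cases hw

end Bad

/-- Adjacency table of the dodecahedron graph, the generalized Petersen graph on `Fin 20`. -/
def dodMask : ℕ :=
  329085712673755851526890279303567099726716079384966513195783868026072052243846209930067331436878358904650029126948750850

/-- Adjacency in the dodecahedron graph. -/
def dodAdj (a b : Fin 20) : Bool := Nat.testBit dodMask (20 * a.1 + b.1)

/-- Successor tables of directed Hamilton cycles of the dodecahedron. -/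
def dodTabs : List ℕ :=
  [376931487008901331102739860545,
   693834163427966835304671120449,
   367027655018450392145343197249,
   369663566361620262188104102241,
   448891743485273560583203369033,
   448891275971437613241271911433,
   448876783014434294765510364169,
   693524980648932287745471155273,
   683635971863141177427641894250,
   445946795010221926221511525386,
   367032792662640779758970930538,
   455840644360237563648657493002,
   693844127326097785076776513889,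
   448413008861152422984569390089,
   377085917984981914048078623073,
   686406527918564616397347270729,
   367187700892884037327993767274,
   693844137056107434115293383690,
   683631131741874268668748237889,
   448891743029162501122381972489,
   683635972157641232763723058186,
   367182860010688935528961803626,
   369508370804891312506921201729,
   369648620514423849992582148449,
   456304418536989954783232560201,
   693843825389122680452843745353,
   445951621282595721654760965130,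
   693524980345229116675253732714,
   367182850575179341826526097761,
   448413008404595507160638686217,
   686406527904743069140958743561,
   445951635878149624401045654538,
   367027966390266984325721490794,
   376921513370889510411991157825,
   367182397670718844487267856737,
   369508672741198310984863789409,
   683631122001993397750104928609,
   448891275970991756878162604105,
   455840644369440679382793751625]

/-- The dodecahedron graph. -/
def dod : SimpleGraph (Fin 20) where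
  Adj a b := dodAdj a b = true
  symm := ⟨by decide +kernel⟩
  loopless := ⟨by decide +kernel⟩

/-- The successor function of a table. -/
def nxt (t : ℕ) (v : Fin 20) : Fin 20 := Fin.ofNat 20 ((t >>> (5 * v.1)) % 32)

lemma dod_tabs : ∀ t ∈ dodTabs, (∀ v, dodAdj v (nxt t v) = true) ∧
    (∀ v w, nxt t v = nxt t w → v = w) ∧ (nxt t)^[20] 0 = 0 ∧
    ∀ v, ∃ k : Fin 20, (nxt t)^[k.1] 0 = v := by
  decide +kernel

lemma dod_cover : ∀ a b, dodAdj a b = true → ∀ c, dodAdj b c = true → a ≠ c →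
    ∀ d, dodAdj c d = true → b ≠ d → ∀ e, dodAdj d e = true → c ≠ e →
    ∃ t ∈ dodTabs, nxt t a = b ∧ nxt t b = c ∧ nxt t c = d ∧ nxt t d = e := by
  decide +kernel

lemma dod_tri : ∀ a b, dodAdj a b = true → ∀ c, dodAdj b c = true → dodAdj c a = true → False := by
  decide +kernel

lemma dod_quad : ∀ a b, dodAdj a b = true → ∀ c, dodAdj b c = true → ∀ d, dodAdj c d = true →
    dodAdj d a = true → a ≠ c → b ≠ d → False := by
  decide +kernel

lemma dod_reg : ∀ v : Fin 20, (Finset.univ.filter fun w => dodAdj v w = true).card = 3 := by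
  decide +kernel


lemma dod_isHam (t : ℕ) (ht : t ∈ dodTabs) :
    ∃ σ : Equiv.Perm (Fin 20), IsHam dod σ ∧ ∀ v, σ v = nxt t v := by
  obtain ⟨h1, h2, h3, h4⟩ := dod_tabs t ht
  let σ : Equiv.Perm (Fin 20) := Equiv.ofBijective (nxt t)
    (Finite.injective_iff_bijective.1 fun v w h => h2 v w h)
  have hσ : ∀ v, σ v = nxt t v := fun v => rfl
  refine ⟨σ, ⟨fun v => h1 v, ?_⟩, hσ⟩
  rintro X ⟨v, hv⟩ hcl
  have key : ∀ (k : ℕ) (w : Fin 20), w ∈ X → (nxt t)^[k] w ∈ X := by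
    intro k
    induction k with
    | zero => exact fun w hw => hw
    | succ k ih =>
      intro w hw
      rw [Function.iterate_succ_apply]
      exact ih _ (hcl w hw)
  obtain ⟨k, rfl⟩ := h4 v
  have h0 : (0 : Fin 20) ∈ X := by
    have := key (20 - k.1) _ hv
    rw [← Function.iterate_add_apply, show 20 - k.1 + k.1 = 20 by omega, h3] at this
    exact this
  ext w
  simp only [Set.mem_univ, iff_true]
  obtain ⟨j, rfl⟩ := h4 w
  exact key _ _ h0

lemma dod_good : Good dod := by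
  refine ⟨?_, ?_, ?_, ?_⟩
  · intro v
    have h := dod_reg v
    rw [← h, ← Set.ncard_coe_finset]
    congr 1
    ext w
    simp [dod]
  · intro a b c h1 h2 h3
    exact dod_tri a b h1 c h2 h3
  · intro a b c d h1 h2 h3 h4 h5 h6
    exact dod_quad a b h1 c h2 d h3 h4 h5 h6
  · intro a b c d e h1 h2 h3 h4 h5 h6 h7
    obtain ⟨t, ht, e1, e2, e3, e4⟩ := dod_cover a b h1 c h2 h5 d h3 h6 e h4 h7
    obtain ⟨σ, hσ, hσ'⟩ := dod_isHam t ht
    exact ⟨σ, hσ, by rw [hσ', e1], by rw [hσ', e2], by rw [hσ', e3], by rw [hσ', e4]⟩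

lemma walk_edge {V : Type} {G : SimpleGraph V} : ∀ {u v : V} (p : G.Walk u v) (i : ℕ),
    i < p.length → s(p.getVert i, p.getVert (i + 1)) ∈ p.edges := by
  intro u v p
  induction p with
  | nil => intro i hi; simp at hi
  | cons h p ih =>
    intro i hi
    rcases i with _ | i
    · simp
    · simp only [SimpleGraph.Walk.getVert_cons_succ, SimpleGraph.Walk.edges_cons, List.mem_cons]
      right
      exact ih i (by simpa using hi)

lemma edge_walk {V : Type} {G : SimpleGraph V} : ∀ {u v : V} (p : G.Walk u v) (e : Sym2 V),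
    e ∈ p.edges → ∃ i, i < p.length ∧ e = s(p.getVert i, p.getVert (i + 1)) := by
  intro u v p
  induction p with
  | nil => intro e he; simp at he
  | cons h p ih =>
    intro e he
    rw [SimpleGraph.Walk.edges_cons, List.mem_cons] at he
    rcases he with rfl | he
    · exact ⟨0, by simp, by simp⟩
    · obtain ⟨i, hi, rfl⟩ := ih e he
      exact ⟨i + 1, by simpa using hi, by simp⟩

lemma exists_cycle_of_isHam {V : Type} [Fintype V] [DecidableEq V] {G : SimpleGraph V}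
    {σ : Equiv.Perm V} (hσ : IsHam G σ) (hc : 3 ≤ Fintype.card V) :
    ∃ (a : V) (C : G.Walk a a), C.IsHamiltonianCycle ∧ ∀ v, s(v, σ v) ∈ C.edges := by
  obtain ⟨v0⟩ : Nonempty V := Fintype.card_pos_iff.1 (by omega)
  set m := Function.minimalPeriod σ v0 with hm
  have hper : v0 ∈ Function.periodicPts σ := by
    have := σ.injective.mem_periodicPts (x := v0)
    exact this
  have hm0 : 0 < m := Function.minimalPeriod_pos_of_mem_periodicPts hper
  have hfm : σ^[m] v0 = v0 := Function.iterate_minimalPeriod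
  have hcov : ∀ v, ∃ k < m, σ^[k] v0 = v := by
    have := hσ.2 {v | ∃ k < m, σ^[k] v0 = v} ⟨v0, 0, hm0, rfl⟩ (by
      rintro v ⟨k, hk, rfl⟩
      rcases Nat.lt_or_ge (k + 1) m with h | h
      · exact ⟨k + 1, h, Function.iterate_succ_apply' _ _ _⟩
      · refine ⟨0, hm0, ?_⟩
        have h2 : k + 1 = m := by omega
        rw [← Function.iterate_succ_apply' σ, show k.succ = m from h2, hfm]
        rfl)
    intro v
    have hv : v ∈ {v | ∃ k < m, σ^[k] v0 = v} := by rw [this]; trivial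
    exact hv
  let L : List V := (List.range m).map fun k => σ^[k] v0
  have hnd : L.Nodup := by
    refine List.Nodup.map_on ?_ List.nodup_range
    intro i hi j hj hij
    rw [List.mem_range] at hi hj
    exact Function.iterate_injOn_Iio_minimalPeriod hi hj hij
  have hmem : ∀ v, v ∈ L := by
    intro v
    obtain ⟨k, hk, rfl⟩ := hcov v
    exact List.mem_map.2 ⟨k, List.mem_range.2 hk, rfl⟩
  have hLlen : L.length = m := by simp [L]
  have hmc : m = Fintype.card V := by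
    rw [← hLlen]
    have h1 : L.toFinset = Finset.univ := by
      ext v
      simp [hmem v]
    rw [← List.toFinset_card_of_nodup hnd, h1, Finset.card_univ]
  have hchain : L.IsChain G.Adj := by
    rw [List.isChain_map, List.isChain_range]
    intro k _
    rw [Nat.succ_eq_add_one, Function.iterate_succ_apply' σ]
    exact hσ.1 _
  have hne : L ≠ [] := by
    intro h
    rw [h] at hLlen
    simp at hLlen
    omega
  let q := Walk.ofSupport (G := G) L hne hchain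
  have hsup : q.support = L := Walk.support_ofSupport hne hchain
  have hhead : L.head hne = v0 := by
    simp only [L]
    rw [List.head_map]
    simp [List.head_range]
  have hlast : L.getLast hne = σ^[m - 1] v0 := by
    simp only [L]
    rw [List.getLast_map]
    simp [List.getLast_range]
  have hstep : σ (σ^[m - 1] v0) = v0 := by
    rw [← Function.iterate_succ_apply' σ, show (m - 1).succ = m by omega, hfm]
  have hadj : G.Adj (L.getLast hne) (L.head hne) := by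
    rw [hlast, hhead]
    have := hσ.1 (σ^[m - 1] v0)
    rwa [hstep] at this
  have hl : q.length = L.length - 1 := Walk.length_ofSupport hne hchain
  have hqp : q.IsPath := by
    rw [Walk.isPath_def, hsup]; exact hnd
  have hqH : q.IsHamiltonian := hqp.isHamiltonian_of_mem (by rw [hsup]; exact hmem)
  have hcyc : (Walk.cons hadj q).IsCycle := by
    rw [Walk.cons_isCycle_iff]
    refine ⟨hqp, ?_⟩
    intro hmem'
    have : q.length = 1 := by
      have h2 : s(L.head hne, L.getLast hne) ∈ q.edges := by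
        rw [Sym2.eq_swap]; exact hmem'
      exact hqp.length_eq_one_of_mem_edges h2
    omega
  refine ⟨L.getLast hne, Walk.cons hadj q, ⟨hcyc, ?_⟩, ?_⟩
  · intro x
    have := hqH x
    simpa [Walk.tail_cons] using this
  · intro v
    obtain ⟨k, hk, rfl⟩ := hcov v
    rw [Walk.edges_cons, List.mem_cons]
    rcases Nat.lt_or_ge (k + 1) m with h | h
    · right
      have h1 := walk_edge q k (by omega)
      have h2 : ∀ i, i < m → q.getVert i = σ^[i] v0 := by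
        intro i hi
        rw [q.getVert_eq_support_getElem (by omega)]
        simp only [hsup]
        simp [L]
      rw [h2 k hk, h2 (k + 1) h, Function.iterate_succ_apply' σ] at h1
      exact h1
    · left
      have h2 : k = m - 1 := by omega
      rw [h2, hstep, hlast, hhead]

lemma exists_isHam_of_cycle {V : Type} [Fintype V] [DecidableEq V] {G : SimpleGraph V}
    (hcard : 3 ≤ Fintype.card V) {a : V} (p : G.Walk a a) (hp : p.IsHamiltonianCycle) :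
    ∃ σ : Equiv.Perm V, IsHam G σ ∧ ∀ e ∈ p.edges, ∃ v, e = s(v, σ v) := by
  have hnil : ¬ p.Nil := hp.isCycle.not_nil
  have hT := hp.isHamiltonian_tail
  have hlen : p.tail.support.length = Fintype.card V := hT.length_support
  set N := Fintype.card V with hN
  obtain ⟨M, hM⟩ : ∃ M, N = M + 3 := ⟨N - 3, by omega⟩
  let e0 := hT.getVertEquiv
  let e : Fin (M + 3) ≃ V := (finCongr (by rw [hlen, hM])).trans e0
  have he : ∀ i : Fin (M + 3), e i = p.tail.getVert i.val := by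
    intro i
    simp [e, e0]
  have hlt : p.tail.length = M + 2 := by
    have := hT.length_eq
    omega
  let σ : Equiv.Perm V := e.symm.trans ((finRotate (M + 3)).trans e)
  have hσ : ∀ i : Fin (M + 3), σ (e i) = e (i + 1) := by
    intro i
    simp [σ]
  have hlast : σ a = p.snd := by
    have h1 : e (Fin.last (M + 2)) = a := by
      rw [he, Fin.val_last, ← hlt]; exact Walk.getVert_length _
    have h2 := hσ (Fin.last (M + 2))
    rw [h1, Fin.last_add_one, he, Fin.val_zero, Walk.getVert_zero] at h2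
    exact h2
  have hstep : ∀ i, i < M + 2 → σ (p.tail.getVert i) = p.tail.getVert (i + 1) := by
    intro i hi
    have h1 := hσ ⟨i, by omega⟩
    rw [he, he] at h1
    have : ((⟨i, by omega⟩ + 1 : Fin (M + 3)) : ℕ) = i + 1 := by
      rw [Fin.val_add_one_of_lt']
      exact (by omega : i + 1 < M + 3)
    rw [this] at h1
    exact h1
  refine ⟨σ, ⟨?_, ?_⟩, ?_⟩
  · intro v
    obtain ⟨i, rfl⟩ := e.surjective v
    rcases Nat.lt_or_ge (i.val + 1) (M + 3) with hi | hi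
    · rw [he, hstep _ (by omega)]
      exact p.tail.adj_getVert_succ (by omega)
    · have hi2 : i.val = M + 2 := by omega
      have : p.tail.getVert (M + 2) = a := by
        rw [← hlt]; exact Walk.getVert_length _
      rw [he, hi2, this, hlast]
      exact p.adj_snd hnil
  · intro X hX hcl
    obtain ⟨v, hv⟩ := hX
    obtain ⟨i, rfl⟩ := e.surjective v
    have key : ∀ k : ℕ, e (i + (Fin.ofNat (M+3) k)) ∈ X := by
      intro k
      induction k with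
      | zero => simpa using hv
      | succ k ih =>
        have := hcl _ ih
        rw [hσ] at this
        have h1 : i + Fin.ofNat (M+3) k + 1 = i + Fin.ofNat (M+3) (k+1) := by
          rw [add_assoc]
          congr 1
          ext
          simp [Fin.val_add, Fin.ofNat]
        rwa [h1] at this
    ext w
    simp only [Set.mem_univ, iff_true]
    obtain ⟨j, rfl⟩ := e.surjective w
    have := key (j - i).val
    simpa using this
  · intro f hf
    have h1 : f = s(a, p.snd) ∨ f ∈ p.tail.edges := by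
      have h2 := Walk.cons_tail_eq p hnil
      rw [← h2, Walk.edges_cons, List.mem_cons] at hf
      exact hf
    rcases h1 with rfl | h1
    · exact ⟨a, by rw [hlast]⟩
    · obtain ⟨i, hi, rfl⟩ := edge_walk _ _ h1
      exact ⟨p.tail.getVert i, by rw [hstep i (by omega)]⟩


/-- Every path of order `i` of `G` lies on some Hamilton cycle of `G`. -/
def PathsExtend {V : Type} [DecidableEq V] (G : SimpleGraph V) (i : ℕ) : Prop :=
  ∀ (u v : V) (P : G.Walk u v), P.IsPath → P.support.length = i →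
    ∃ (a : V) (C : G.Walk a a), C.IsHamiltonianCycle ∧
      (∀ x ∈ P.support, x ∈ C.support) ∧ ∀ e ∈ P.edges, e ∈ C.edges

/-- `k` is the Hamiltonian extension number of `G`: the largest `k` with `1 ≤ k ≤ |V|` such that
for every `1 ≤ i ≤ k` every path of order `i` lies on a Hamilton cycle. -/
def IsHE {V : Type} [Fintype V] [DecidableEq V] (G : SimpleGraph V) (k : ℕ) : Prop :=
  IsGreatest {j | 1 ≤ j ∧ j ≤ Fintype.card V ∧ ∀ i, 1 ≤ i → i ≤ j → PathsExtend G i} k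

lemma Good.extend {V : Type} [Fintype V] [DecidableEq V] {G : SimpleGraph V} (h : Good G)
    (hc : 3 ≤ Fintype.card V) (i : ℕ) (hi : i ≤ 5) : PathsExtend G i := by
  intro u v P hP hlen
  have fin : ∀ σ : Equiv.Perm V, IsHam G σ → (∀ e ∈ P.edges, ∃ w, e = s(w, σ w)) →
      ∃ (a : V) (C : G.Walk a a), C.IsHamiltonianCycle ∧
        (∀ x ∈ P.support, x ∈ C.support) ∧ ∀ e ∈ P.edges, e ∈ C.edges := by
    intro σ hσ hP
    obtain ⟨a, C, hC, hCe⟩ := exists_cycle_of_isHam hσ hc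
    refine ⟨a, C, hC, fun x _ => hC.mem_support x, ?_⟩
    intro e he
    obtain ⟨w, rfl⟩ := hP e he
    exact hCe w
  rcases P with _ | ⟨h1, P⟩
  · obtain ⟨b, hb, hb'⟩ := h.other u u
    obtain ⟨c, hc, hc'⟩ := h.other b u
    obtain ⟨σ, hσ, -⟩ := h.e3 u b c hb hc hc'.symm
    exact fin σ hσ (by simp)
  rcases P with _ | ⟨h2, P⟩
  · obtain ⟨c, hc, hc'⟩ := h.other v u
    obtain ⟨σ, hσ, e1, -⟩ := h.e3 u v c h1 hc hc'.symm
    refine fin σ hσ ?_
    intro e he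
    simp only [Walk.edges_cons, Walk.edges_nil, List.mem_cons, List.not_mem_nil, or_false] at he
    exact ⟨u, by rw [he, e1]⟩
  rcases P with _ | ⟨h3, P⟩
  · have hn := hP.support_nodup
    simp only [Walk.support_cons, Walk.support_nil, List.nodup_cons, List.mem_cons,
      List.not_mem_nil, or_false, not_or] at hn
    obtain ⟨σ, hσ, e1, e2⟩ := h.e3 _ _ _ h1 h2 hn.1.2
    refine fin σ hσ ?_
    intro e he
    simp only [Walk.edges_cons, Walk.edges_nil, List.mem_cons, List.not_mem_nil, or_false] at he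
    rcases he with he | he
    · exact ⟨_, by rw [he, ← e1]⟩
    · exact ⟨_, by rw [he, ← e2]⟩
  rcases P with _ | ⟨h4, P⟩
  · have hn := hP.support_nodup
    simp only [Walk.support_cons, Walk.support_nil, List.nodup_cons, List.mem_cons,
      List.not_mem_nil, or_false, not_or] at hn
    obtain ⟨σ, hσ, e1, e2, e3⟩ := h.e4 _ _ _ _ h1 h2 h3 hn.1.2.1 hn.2.1.2
    refine fin σ hσ ?_
    intro e he
    simp only [Walk.edges_cons, Walk.edges_nil, List.mem_cons, List.not_mem_nil, or_false] at he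
    rcases he with he | he | he
    · exact ⟨_, by rw [he, ← e1]⟩
    · exact ⟨_, by rw [he, ← e2]⟩
    · exact ⟨_, by rw [he, ← e3]⟩
  rcases P with _ | ⟨h5, P⟩
  · have hn := hP.support_nodup
    simp only [Walk.support_cons, Walk.support_nil, List.nodup_cons, List.mem_cons,
      List.not_mem_nil, or_false, not_or] at hn
    obtain ⟨σ, hσ, e1, e2, e3, e4⟩ := h.e5 _ _ _ _ _ h1 h2 h3 h4 hn.1.2.1 hn.2.1.2.1 hn.2.2.1.2
    refine fin σ hσ ?_
    intro e he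
    simp only [Walk.edges_cons, Walk.edges_nil, List.mem_cons, List.not_mem_nil, or_false] at he
    rcases he with he | he | he | he
    · exact ⟨_, by rw [he, ← e1]⟩
    · exact ⟨_, by rw [he, ← e2]⟩
    · exact ⟨_, by rw [he, ← e3]⟩
    · exact ⟨_, by rw [he, ← e4]⟩
  · simp only [Walk.support_cons, List.length_cons, Walk.length_support] at hlen
    omega

lemma not_extend_six {V : Type} [Fintype V] [DecidableEq V] {G : SimpleGraph V}
    (hc : 3 ≤ Fintype.card V) (x0 x1 x2 x3 x4 x5 : V) (a1 : G.Adj x0 x1) (a2 : G.Adj x1 x2)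
    (a3 : G.Adj x2 x3) (a4 : G.Adj x3 x4) (a5 : G.Adj x4 x5)
    (hn : [x0, x1, x2, x3, x4, x5].Nodup)
    (hbad : ∀ τ, IsHam G τ → τ x0 = x1 → τ x1 = x2 → τ x2 = x3 → τ x3 = x4 → τ x4 = x5 → False) :
    ¬ PathsExtend G 6 := by
  intro hext
  let P : G.Walk x0 x5 := Walk.cons a1 (Walk.cons a2 (Walk.cons a3 (Walk.cons a4 (Walk.cons a5
    Walk.nil))))
  have hPs : P.support = [x0, x1, x2, x3, x4, x5] := rfl
  have hPe : P.edges = [s(x0, x1), s(x1, x2), s(x2, x3), s(x3, x4), s(x4, x5)] := rfl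
  obtain ⟨a, C, hC, -, hCe⟩ := hext x0 x5 P (by rw [Walk.isPath_def, hPs]; exact hn)
    (by rw [hPs]; rfl)
  obtain ⟨τ, hτ, hτe⟩ := exists_isHam_of_cycle hc C hC
  have key : ∀ x y, s(x, y) ∈ P.edges → τ x = y ∨ τ y = x := by
    intro x y hxy
    obtain ⟨v, hv⟩ := hτe _ (hCe _ hxy)
    rw [Sym2.eq_iff] at hv
    rcases hv with ⟨rfl, h⟩ | ⟨h, rfl⟩
    · exact Or.inl h.symm
    · exact Or.inr h.symm
  have k1 := key x0 x1 (by rw [hPe]; simp)
  have k2 := key x1 x2 (by rw [hPe]; simp)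
  have k3 := key x2 x3 (by rw [hPe]; simp)
  have k4 := key x3 x4 (by rw [hPe]; simp)
  have k5 := key x4 x5 (by rw [hPe]; simp)
  simp only [List.nodup_cons, List.mem_cons, List.not_mem_nil, or_false, not_or] at hn
  obtain ⟨⟨-, n02, -⟩, ⟨-, n13, -⟩, ⟨-, n24, -⟩, ⟨-, n35⟩, -⟩ := hn
  have up : ∀ x y z, x ≠ z → τ x = y → (τ y = z ∨ τ z = y) → τ y = z := by
    intro x y z hxz h1 h2
    rcases h2 with h2 | h2
    · exact h2
    · exact absurd (τ.injective (h1.trans h2.symm)) hxz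
  have down : ∀ x y z, x ≠ z → τ y = x → (τ y = z ∨ τ z = y) → τ z = y := by
    intro x y z hxz h1 h2
    rcases h2 with h2 | h2
    · exact absurd (h1.symm.trans h2) hxz
    · exact h2
  rcases k1 with k1 | k1
  · have k2' := up _ _ _ n02 k1 k2
    have k3' := up _ _ _ n13 k2' k3
    have k4' := up _ _ _ n24 k3' k4
    have k5' := up _ _ _ n35 k4' k5
    exact hbad τ hτ k1 k2' k3' k4' k5'
  · have k2' := down _ _ _ n02 k1 k2
    have k3' := down _ _ _ n13 k2' k3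
    have k4' := down _ _ _ n24 k3' k4
    have k5' := down _ _ _ n35 k4' k5
    exact hbad τ.symm hτ.inv (by rw [← k1]; simp) (by rw [← k2']; simp) (by rw [← k3']; simp)
      (by rw [← k4']; simp) (by rw [← k5']; simp)

lemma card_glue {V₁ : Type} [Fintype V₁] [DecidableEq V₁] (v : V₁) :
    Fintype.card ({u : V₁ // u ≠ v} ⊕ {w : Fin 20 // w ≠ 0}) = Fintype.card V₁ - 1 + 19 := by
  rw [Fintype.card_sum]
  have h1 : Fintype.card {u : V₁ // u ≠ v} = Fintype.card V₁ - 1 := by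
    rw [Fintype.card_subtype_compl, Fintype.card_subtype_eq]
  have h2 : Fintype.card {w : Fin 20 // w ≠ 0} = 19 := by
    rw [Fintype.card_subtype_compl, Fintype.card_subtype_eq]
    simp
  rw [h1, h2]

lemma exists_good (m : ℕ) : ∃ (V : Type) (_ : Fintype V) (_ : DecidableEq V) (G : SimpleGraph V),
    Fintype.card V = 20 + 18 * m ∧ Good G := by
  induction m with
  | zero => exact ⟨Fin 20, inferInstance, inferInstance, dod, by simp, dod_good⟩
  | succ m ih =>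
    obtain ⟨V, i1, i2, G, hc, hG⟩ := ih
    obtain ⟨v⟩ : Nonempty V := Fintype.card_pos_iff.1 (by omega)
    obtain ⟨M, hM⟩ := exists_nbMatch hG dod_good v 0
    refine ⟨_, inferInstance, inferInstance, glue G v dod 0 M, ?_, glue_good hG dod_good hM⟩
    rw [card_glue, hc]
    omega

/-- For every `m` there is a cubic Hamiltonian graph of order `38 + 18 m` with Hamiltonian
extension number exactly `5`. -/
theorem result : ∀ m : ℕ, ∃ (V : Type) (_ : Fintype V) (_ : DecidableEq V) (G : SimpleGraph V),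
    Fintype.card V = 38 + 18 * m ∧ (∀ v, (G.neighborSet v).ncard = 3) ∧ G.IsHamiltonian ∧
      IsHE G 5 := by
  intro m
  obtain ⟨V, i1, i2, G, hc, hG⟩ := exists_good m
  obtain ⟨v⟩ : Nonempty V := Fintype.card_pos_iff.1 (by omega)
  obtain ⟨M, hM⟩ := exists_nbMatch hG dod_good v 0
  have hgood := glue_good hG dod_good hM
  have hcard := card_glue v
  rw [hc] at hcard
  have hcard3 : 3 ≤ Fintype.card ({u : V // u ≠ v} ⊕ {w : Fin 20 // w ≠ 0}) := by omega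
  refine ⟨_, inferInstance, inferInstance, glue G v dod 0 M, by omega, fun x => hgood.reg x, ?_,
    ⟨by omega, by omega, fun i _ hi => hgood.extend hcard3 i hi⟩, ?_⟩
  · intro _
    obtain ⟨u⟩ : Nonempty ({u : V // u ≠ v} ⊕ {w : Fin 20 // w ≠ 0}) :=
      Fintype.card_pos_iff.1 (by omega)
    obtain ⟨b, hb, hb'⟩ := hgood.other u u
    obtain ⟨c, hc, hc'⟩ := hgood.other b u
    obtain ⟨σ, hσ, -⟩ := hgood.e3 u b c hb hc hc'.symm
    obtain ⟨a, C, hC, -⟩ := exists_cycle_of_isHam hσ hcard3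
    exact ⟨a, C, hC⟩
  · rintro j ⟨hj1, hj2, hj3⟩
    by_contra hj
    push Not at hj
    obtain ⟨x, hx⟩ := hM.surj 1 (show dodAdj 0 1 = true by decide +kernel)
    obtain ⟨y, hy⟩ := hM.surj 10 (show dodAdj 0 10 = true by decide +kernel)
    have hxv : x ≠ v := (hM.left _ _ hx).ne'
    have hyv : y ≠ v := (hM.left _ _ hy).ne'
    have hxy : x ≠ y := by
      rintro rfl
      have := hM.func _ _ _ hx hy
      revert this
      decide
    refine not_extend_six hcard3 (Sum.inl ⟨x, hxv⟩) (Sum.inr ⟨1, by decide⟩) (Sum.inr ⟨2, by decide⟩)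
      (Sum.inr ⟨12, by decide⟩) (Sum.inr ⟨10, by decide⟩) (Sum.inl ⟨y, hyv⟩) hx
      (show dodAdj 1 2 = true by decide +kernel) (show dodAdj 2 12 = true by decide +kernel)
      (show dodAdj 12 10 = true by decide +kernel) hy ?_ ?_ (hj3 6 (by omega) hj)
    · simp [hxy]
    · intro τ hτ g1 g2 g3 g4 g5
      exact bad_path hM hτ hgood (t := 9) (y0 := ⟨3, by decide⟩)
        (by
          have : ∀ w : Fin 20, dodAdj 0 w = true → w = 1 ∨ w = 10 ∨ w = 9 := by decide +kernel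
          exact this)
        (by decide) g1 g2 g3 g4 g5

end Pool.Agent.Results.MP_b9f640_co.HeFive
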